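import Mathlib

open Filter Topology Polynomial

namespace Pool.Agent.H.MP_17a4eb_an

variable {B : Type} [NormedRing B] [NormedAlgebra ℂ B] [CompleteSpace B]

lemma allan {z f : B} (hz : ∀ y, Commute z y)
    (h : ∀ l : ℂ, ∃ b c, b * f + c * (algebraMap ℂ B l - z) = 1) : ∃ g, g * f = 1 := by
  by_contra! k
  obtain ⟨L, hL, le⟩ := Ideal.exists_le_maximal (Ideal.span {f}) fun e => by
    obtain ⟨g, hg⟩ := Ideal.mem_span_singleton'.1 (e.ge (Submodule.mem_top (x := 1)))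
    exact k g hg
  have n1 : (1 : B) ∉ L := (Ideal.ne_top_iff_one _).1 hL.ne_top
  let S : Submodule ℂ B := L.restrictScalars ℂ
  have : IsClosed (S : Set B) := Ideal.IsMaximal.isClosed
  have : Nontrivial (B ⧸ S) := Submodule.Quotient.nontrivial_iff.2 fun e => n1 (e.ge Submodule.mem_top)
  let Z : B ⧸ S →L[ℂ] B ⧸ S := S.liftQL (S.mkQL.comp (ContinuousLinearMap.mul ℂ B z)) fun y hy =>
    (Submodule.Quotient.mk_eq_zero _).2 (L.mul_mem_left z hy)
  obtain ⟨l, hl⟩ := spectrum.nonempty Z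
  obtain ⟨b, c, e⟩ := h l
  have cm (y) : Commute (algebraMap ℂ B l - z) y := .sub_left (Algebra.commutes l y) (hz y)
  have m : b * f ∈ L := L.mul_mem_left b (le (Ideal.mem_span_singleton_self f))
  have ap (y : B) : (algebraMap ℂ _ l - Z) (S.mkQ y) = S.mkQ ((algebraMap ℂ B l - z) * y) := by
    rw [sub_mul, map_sub, ← Algebra.smul_def, map_smul]; rfl
  refine hl (ContinuousLinearMap.isUnit_iff_bijective.2 ⟨(injective_iff_map_eq_zero _).2 fun y hy => ?_,
    fun y => ?_⟩) <;> obtain ⟨y, rfl⟩ := S.mkQ_surjective y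
  · rw [ap] at hy
    by_contra k
    obtain ⟨u, v, hv, e2⟩ := hL.exists_inv (mt (Submodule.Quotient.mk_eq_zero S).2 k)
    refine n1 ?_
    rw [← e, ← mul_one (_ - z), ← e2, mul_add, ← mul_assoc _ u, cm u, mul_assoc u]
    exact L.add_mem m (L.mul_mem_left _ (L.add_mem (L.mul_mem_left _
      ((Submodule.Quotient.mk_eq_zero S).1 hy)) (L.mul_mem_left _ hv)))
  · refine ⟨S.mkQ (y * c), (ap _).trans ((Submodule.Quotient.eq S).2 ?_)⟩
    rw [cm, mul_assoc, eq_sub_of_add_eq' e, mul_sub, mul_one, sub_sub_cancel_left]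
    exact L.neg_mem (L.mul_mem_left _ m)

omit [NormedAlgebra ℂ B] in
lemma similar {e : unitInterval → B} (he : Continuous e) (h : ∀ t, e t * e t = e t) (s t) :
    ∃ u, IsUnit u ∧ u * e s = e t * u := by
  have key (s t) (k : IsUnit (e t * e s + (1 - e t) * (1 - e s))) :
      ∃ u, IsUnit u ∧ u * e s = e t * u :=
    ⟨_, k, by simp only [add_mul, mul_add, mul_assoc, sub_mul, mul_sub, one_mul, mul_one, h,
      ← mul_assoc (e t) (e t)]; abel⟩
  refine PreconnectedSpace.induction₂' (fun s t => ∃ u, IsUnit u ∧ u * e s = e t * u) (fun s => ?_)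
    ⟨fun a b c ⟨u, h1, h2⟩ ⟨v, h3, h4⟩ => ⟨v * u, h3.mul h1, by
      rw [mul_assoc, h2, ← mul_assoc, h4, mul_assoc]⟩⟩ s t
  have m := Units.isOpen.mem_nhds (show e s * e s + (1 - e s) * (1 - e s) ∈ {x | IsUnit x} by
    simp [sub_mul, mul_sub, h])
  filter_upwards [ContinuousAt.preimage_mem_nhds (f := fun t => e t * e s + (1 - e t) * (1 - e s))
    (by fun_prop) m, ContinuousAt.preimage_mem_nhds (f := fun t => e s * e t + (1 - e s) * (1 - e t))
    (by fun_prop) m] with t h1 h2 using ⟨key _ _ h1, key _ _ h2⟩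

theorem abs {A : Type} [Ring A] (ι : A →+* B) {z : B} (a : A) (hz : ∀ y, Commute z y)
    (hl : ∀ l : ℂ, ∃ b, b * (ι a - algebraMap ℂ B l) = 1 ∨ b * (algebraMap ℂ B l - z) = 1)
    (dens : DenseRange (eval₂ ι z)) (hom : ∀ p : B, p * p = p → ∃ e : unitInterval → B,
      Continuous e ∧ (∀ t, e t * e t = e t) ∧ e 1 = p ∧ ∃ q, ι q = e 0) :
    ∃ (G t : B) (n : A), G * (ι a - z) = 1 ∧ G * ι n = 0 ∧ (ι a - z) * G + ι n * t = 1 := by
  obtain ⟨g, hg⟩ := allan (f := ι a - z) hz fun l => by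
    obtain ⟨b, h | h⟩ := hl l
    · exact ⟨b, -b, by rw [← h]; noncomm_ring⟩
    · exact ⟨0, b, by simpa⟩
  obtain ⟨p, hp⟩ : ∃ p, (ι a - z) * g = 1 - p := ⟨_, (sub_sub_cancel _ _).symm⟩
  have pf : p * (ι a - z) = 0 := by
    rw [← sub_sub_cancel 1 p, ← hp, sub_mul, mul_assoc, hg]; simp
  have pp : p * p = p := by
    rw [← sub_eq_zero, ← neg_sub, ← mul_one_sub, ← hp, ← mul_assoc, pf]; simp
  obtain ⟨e, h1, h2, h3, q, hq⟩ := hom p pp
  obtain ⟨u, hu, h4⟩ := similar h1 h2 0 1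
  have qq := h2 0
  rw [← hq] at qq
  rw [h3, ← hq] at h4
  have pz (n : ℕ) : p * z ^ n = p * ι a ^ n := by
    induction n with
    | zero => simp
    | succ n ih => rw [pow_succ, ← mul_assoc, ih, mul_assoc, ← hz, pow_succ', ← mul_assoc, ← mul_assoc,
        sub_eq_zero.1 ((mul_sub _ _ _).symm.trans pf)]
  have px (P : A[X]) : ∃ x, p * eval₂ ι z P = p * ι x := by
    induction P using Polynomial.induction_on' with
    | add P Q h1 h2 =>
      obtain ⟨x, hx⟩ := h1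
      obtain ⟨y, hy⟩ := h2
      exact ⟨x + y, by simp [mul_add, hx, hy]⟩
    | monomial n c =>
      exact ⟨a ^ n * c, by rw [eval₂_monomial, ← (hz _).pow_left, ← mul_assoc, pz]; simp [mul_assoc]⟩
  obtain ⟨_, ⟨P, rfl⟩, w, hw⟩ := dens.inter_nhds_nonempty (ContinuousAt.preimage_mem_nhds
    (f := fun s => u + (p * s - p * u) * ι q) (x := u) (by fun_prop)
    (Units.isOpen.mem_nhds (by simpa)))
  obtain ⟨x, hx⟩ := px P
  simp only [hx] at hw
  have e0 : p * u * ι q = p * u := by rw [mul_assoc, h4, ← mul_assoc, pp]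
  have e1 : p * ι (x * q) = w * ι q := by
    rw [hw, add_mul, mul_assoc _ _ (ι q), qq, sub_mul, e0, h4, map_mul, mul_assoc]; abel
  have e2 : p * ι (x * q) = p * w := by
    rw [hw, mul_add, sub_mul, e0, mul_sub, ← mul_assoc, ← mul_assoc, ← mul_assoc, pp, map_mul,
      mul_assoc]; abel
  have e3 : ι q * ↑w⁻¹ = ↑w⁻¹ * p := by
    rw [Units.mul_inv_eq_iff_eq_mul, mul_assoc, Units.eq_inv_mul_iff_mul_eq, ← e1, e2]
  refine ⟨g * (1 - ι (x * q) * (↑w⁻¹ * p)), ↑w⁻¹ * p, x * q, ?_, ?_, ?_⟩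
  · simp only [mul_assoc, sub_mul, pf, mul_zero, sub_zero, one_mul, hg]
  · rw [mul_assoc, sub_mul, mul_assoc, mul_assoc, e1, Units.inv_mul_cancel_left, map_mul, mul_assoc, qq]
    simp
  · rw [← mul_assoc, hp, mul_sub, sub_mul _ p (_ * _), ← mul_assoc p, e1, mul_assoc _ (ι q), ← mul_assoc (ι q),
      e3, mul_assoc, pp, Units.mul_inv_cancel_left]
    simp

variable {A : Type} [NormedRing A] [NormedAlgebra ℂ A] [CompleteSpace A]

abbrev K (ρ : ℝ) := Metric.closedBall (0 : ℂ) ρ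

noncomputable def zz (A : Type) [NormedRing A] [NormedAlgebra ℂ A] (ρ : ℝ) : C(K ρ, A) :=
  ⟨fun l => algebraMap ℂ A l, by fun_prop⟩

noncomputable def cst (A : Type) [NormedRing A] [NormedAlgebra ℂ A] (ρ : ℝ) : A →ₐ[ℂ] C(K ρ, A) :=
  ⟨⟨⟨⟨.const _, rfl⟩, fun _ _ => rfl⟩, rfl, fun _ _ => rfl⟩, fun c => by
    ext; simp [Algebra.algebraMap_eq_smul_one]⟩

omit [CompleteSpace A] in
lemma comm {ρ : ℝ} (y : C(K ρ, A)) : Commute (zz A ρ) y := ContinuousMap.ext fun l => Algebra.commutes l.1 (y l)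

noncomputable def DA (A : Type) [NormedRing A] [NormedAlgebra ℂ A] (ρ : ℝ) : Subalgebra ℂ C(K ρ, A) :=
  (eval₂AlgHom (cst A ρ) (zz A ρ) fun _ => (comm _).symm).range.topologicalClosure

noncomputable def dil (ρ : ℝ) (t : unitInterval) : C(K ρ, K ρ) :=
  ⟨fun l => ⟨t.1 • l.1, mem_closedBall_zero_iff.2 ((norm_smul_le _ _).trans ((mul_le_of_le_one_left
    (norm_nonneg _) (abs_le.2 ⟨by linarith [t.2.1], t.2.2⟩)).trans (mem_closedBall_zero_iff.1 l.2)))⟩,
    by fun_prop⟩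

theorem disc {a : A} (h : ∀ z : ℂ, ‖z‖ < 1 → ∃ b : A, b * (a - algebraMap ℂ A z) = 1) {ρ : ℝ}
    (h0 : 0 ≤ ρ) (h1 : ρ < 1) : ∃ G : C(K ρ, A), (∀ l, G l * (a - algebraMap ℂ A l) = 1) ∧
      ∀ l m, G l - G m = (l.1 - m.1) • (G l * G m) := by
  have : CompleteSpace (DA A ρ) := (Subalgebra.isClosed_topologicalClosure _).completeSpace_coe
  have mem (P : A[X]) : eval₂ (cst A ρ : A →+* _) (zz A ρ) P ∈ DA A ρ :=
    Subalgebra.le_topologicalClosure _ ⟨P, rfl⟩
  let ι : A →+* DA A ρ := (cst A ρ : A →+* _).codRestrict (DA A ρ) fun x => by simpa using mem (C x)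
  let z : DA A ρ := ⟨zz A ρ, by simpa using mem X⟩
  have hz (y) : Commute z y := Subtype.ext (comm y.1)
  refine (abs ι a hz (fun l => ?_) ?_ fun p hp => ?_).elim fun G ⟨t, n, k1, k2, k3⟩ => ?_
  rotate_right
  · have a1 (l : K ρ) : G.1 l * (a - algebraMap ℂ A l) = 1 := congrArg (·.1 l) k1
    have a2 (l : K ρ) : G.1 l * n = 0 := congrArg (·.1 l) k2
    have a3 (l : K ρ) : (a - algebraMap ℂ A l) * G.1 l + n * t.1 l = 1 := congrArg (·.1 l) k3
    refine ⟨G.1, a1, fun l m => ?_⟩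
    have := congrArg (G.1 l * ·) (a3 m)
    simp only [mul_add, ← mul_assoc, a2, zero_mul, add_zero, mul_one] at this
    rw [show a - algebraMap ℂ A m = a - algebraMap ℂ A l + algebraMap ℂ A (l - m) by simp, mul_add, a1,
      add_mul, one_mul, ← Algebra.commutes, mul_assoc, ← Algebra.smul_def] at this
    exact (eq_sub_of_add_eq' this).symm
  · by_cases hl : ‖l‖ < 1
    · obtain ⟨b, hb⟩ := h l hl
      refine ⟨ι b, .inl (Subtype.ext (ContinuousMap.ext fun x => ?_))⟩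
      simpa [ι, cst, Algebra.algebraMap_eq_smul_one] using hb
    push Not at hl
    have l0 : l ≠ 0 := by rintro rfl; norm_num at hl
    have : ‖l⁻¹ • ContinuousLinearMap.mul ℂ (DA A ρ) z‖ < 1 := by
      refine (ContinuousLinearMap.opNorm_le_bound _ h0 fun y => (ContinuousMap.norm_le _
        (by positivity)).2 fun x => ?_).trans_lt h1
      change ‖l⁻¹ • (algebraMap ℂ A x * y.1 x)‖ ≤ ρ * ‖y.1‖
      rw [← Algebra.smul_def, norm_smul, norm_smul, norm_inv]
      exact (mul_le_of_le_one_left (by positivity) (inv_le_one_of_one_le₀ hl)).trans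
        (mul_le_mul (mem_closedBall_zero_iff.1 x.2) (y.1.norm_coe_le_norm x) (norm_nonneg _) h0)
    obtain ⟨y, hy⟩ := (ContinuousLinearMap.isUnit_iff_bijective.1 (Units.oneSub _ this).isUnit).2 1
    refine ⟨l⁻¹ • y, .inr ?_⟩
    rw [← hy, mul_sub, ← Algebra.commutes, ← Algebra.smul_def, smul_inv_smul₀ l0,
      smul_mul_assoc, ← hz]
    rfl
  · refine Subtype.dense_iff.2 (closure_mono ?_)
    rintro _ ⟨P, rfl⟩
    exact ⟨_, ⟨P, rfl⟩, hom_eval₂ P ι (DA A ρ).val.toRingHom z⟩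
  have m (t) : p.1.comp (dil ρ t) ∈ DA A ρ := by
    refine map_mem_closure (f := fun g : C(K ρ, A) => g.comp (dil ρ t))
      (ContinuousMap.continuous_precomp (dil ρ t)) p.2 ?_
    rintro _ ⟨P, rfl⟩
    induction P using Polynomial.induction_on' with
    | add P Q h1 h2 => simpa using add_mem h1 h2
    | monomial n c =>
      refine ⟨monomial n ((t.1 : ℂ) ^ n • c), ContinuousMap.ext fun l => ?_⟩
      change eval₂ (cst A ρ : A →+* _) (zz A ρ) _ l = eval₂ (cst A ρ : A →+* _) (zz A ρ) _ (dil ρ t l)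
      rw [eval₂_monomial, eval₂_monomial]
      simp [cst, zz, dil, Algebra.algebraMap_eq_smul_one, _root_.smul_pow, smul_smul, mul_pow,
        mul_comm (l.1 ^ n)]
  refine ⟨fun t => ⟨_, m t⟩, Continuous.subtype_mk (continuous_const.compCM
    (ContinuousMap.continuous_of_continuous_uncurry _ (Continuous.subtype_mk (by fun_prop) _))) _,
    fun t => Subtype.ext (ContinuousMap.ext fun l => congrArg (·.1 (dil ρ t l)) hp),
    Subtype.ext (ContinuousMap.ext fun l => by simp [dil]),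
    p.1 ⟨0, Metric.mem_closedBall_self h0⟩, Subtype.ext (ContinuousMap.ext fun l => ?_)⟩
  exact congrArg p.1 (Subtype.ext (by simp [dil]))

end Pool.Agent.H.MP_17a4eb_an
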